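import Pool.Agent.H59.L.S8.W418.LU2.Ind

/-!
# Regularity of localizations of tensor products
-/

set_option autoImplicit false
set_option linter.unusedSectionVars false
set_option linter.unusedVariables false

universe u v

open IsLocalRing TensorProduct Pool.Agent.W418.LU2

namespace Pool.Agent.X140.CP

/-- Heights and regular elements. -/
lemma height_step {B : Type u} [CommRing B] {I : Ideal B} {z : B}
    (hz : ∀ w, z * w ∈ I → w ∈ I) {N : ℕ∞}
    (h : ∀ q : Ideal B, q.IsPrime → I ≤ q → N ≤ q.height) (q : Ideal B) (hq : q.IsPrime)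
    (hle : I ≤ q) (hzq : z ∈ q) : N + 1 ≤ q.height := by
  obtain ⟨p, hp, hpq⟩ := Ideal.exists_minimalPrimes_le hle
  have hpp := hp.1.1
  have hzp : z ∉ p := by
    intro hz'
    obtain ⟨y, hy, hyI⟩ := Ideal.exists_mul_mem_of_mem_minimalPrimes hp hz'
    exact hy (hz y hyI)
  have hlt : p < q := lt_of_le_of_ne hpq (by rintro rfl; exact hzp hzq)
  calc N + 1 ≤ p.height + 1 := by gcongr; exact h p hpp hp.1.2
    _ ≤ q.height := Ideal.height_add_one_le_of_lt_of_isPrime hlt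

section reg

variable {B : Type u} [CommRing B] [IsRegularLocalRing B]

/-- The ideal generated by the first elements. -/
def fst {d : ℕ} (x : Fin d → B) (m : ℕ) : Ideal B := Ideal.span {z | ∃ i : Fin d, i.1 < m ∧ x i = z}

omit [IsRegularLocalRing B] in
lemma fst_eq {d : ℕ} (x : Fin d → B) {m : ℕ} (hm : m ≤ d) :
    fst x m = Ideal.span (Set.range fun i : Fin m => x (Fin.castLE hm i)) := by
  unfold fst
  congr 1
  ext z
  constructor
  · rintro ⟨i, hi, rfl⟩
    exact ⟨⟨i.1, hi⟩, rfl⟩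
  · rintro ⟨i, rfl⟩
    exact ⟨Fin.castLE hm i, i.2, rfl⟩

omit [IsRegularLocalRing B] in
lemma fst_mono {d : ℕ} (x : Fin d → B) (m : ℕ) : fst x m ≤ fst x (m + 1) := by
  refine Ideal.span_mono ?_
  rintro z ⟨i, hi, hz⟩
  exact ⟨i, Nat.lt_succ_of_lt hi, hz⟩

lemma fst_prime {d : ℕ} {x : Fin d → B} (h : Ind x) {m : ℕ} (hm : m ≤ d) : (fst x m).IsPrime := by
  have h1 : Ind (x ∘ Fin.castLE hm) := h.comp _ (Fin.castLE_injective hm)
  have h2 := h1.regular
  have h3 : IsDomain (B ⧸ Ideal.span (Set.range (x ∘ Fin.castLE hm))) :=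
    Pool.Agent.H379R3.isDomain _
  rw [fst_eq x hm]
  exact (Ideal.Quotient.isDomain_iff_prime _).1 h3

lemma not_mem_fst {d : ℕ} {x : Fin d → B} (h : Ind x) {m : ℕ} (hm : m < d) :
    x ⟨m, hm⟩ ∉ fst x m := by
  classical
  intro h0
  rw [fst_eq x hm.le, Ideal.mem_span_range_iff_exists_fun] at h0
  obtain ⟨c, hc⟩ := h0
  have h1 : Ind (x ∘ Fin.castLE (Nat.succ_le_of_lt hm)) :=
    h.comp _ (Fin.castLE_injective _)
  have h2 := h1.2 (Fin.snoc (fun i => - c i) 1) (by
    have h3 : ∑ i : Fin (m + 1), (Fin.snoc (fun i => - c i) 1 : Fin (m + 1) → B) i *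
        (x ∘ Fin.castLE (Nat.succ_le_of_lt hm)) i = 0 := by
      rw [Fin.sum_univ_castSucc]
      simp only [Fin.snoc_castSucc, Fin.snoc_last, one_mul, Function.comp]
      have h4 : x (Fin.castLE (Nat.succ_le_of_lt hm) (Fin.last m)) = x ⟨m, hm⟩ := rfl
      rw [h4, ← hc]
      have h5 : ∀ i : Fin m, x (Fin.castLE (Nat.succ_le_of_lt hm) i.castSucc) =
        x (Fin.castLE hm.le i) := fun i => rfl
      simp only [h5, neg_mul, Finset.sum_neg_distrib]
      ring
    rw [h3]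
    exact Ideal.zero_mem _) (Fin.last m)
  rw [Fin.snoc_last] at h2
  exact (Ideal.ne_top_iff_one _).1 (maximalIdeal.isMaximal B).ne_top h2

end reg

section tensor

variable {k B1 B2 : Type u} [Field k] [CommRing B1] [CommRing B2] [Algebra k B1] [Algebra k B2]

/-- The ideal of the tensor product generated by two ideals. -/
def JJ (I1 : Ideal B1) (I2 : Ideal B2) : Ideal (B1 ⊗[k] B2) :=
  I1.map (Algebra.TensorProduct.includeLeft : B1 →ₐ[k] B1 ⊗[k] B2) ⊔
    I2.map (Algebra.TensorProduct.includeRight : B2 →ₐ[k] B1 ⊗[k] B2)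

lemma mem_JJ (I1 : Ideal B1) (I2 : Ideal B2) (w : B1 ⊗[k] B2) :
    w ∈ JJ (k := k) I1 I2 ↔
      Algebra.TensorProduct.map (Ideal.Quotient.mkₐ k I1) (Ideal.Quotient.mkₐ k I2) w = 0 := by
  have h := Algebra.TensorProduct.map_ker (Ideal.Quotient.mkₐ k I1) (Ideal.Quotient.mkₐ k I2)
    (Ideal.Quotient.mkₐ_surjective k I1) (Ideal.Quotient.mkₐ_surjective k I2)
  have h1 : RingHom.ker (Ideal.Quotient.mkₐ k I1) = I1 := Ideal.Quotient.mkₐ_ker k I1
  have h2 : RingHom.ker (Ideal.Quotient.mkₐ k I2) = I2 := Ideal.Quotient.mkₐ_ker k I2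
  rw [h1, h2] at h
  unfold JJ
  rw [← h]
  exact RingHom.mem_ker

lemma nzd_left {I1 : Ideal B1} [hI : I1.IsPrime] {I2 : Ideal B2} {z : B1} (hz : z ∉ I1)
    (w : B1 ⊗[k] B2) (h : (z ⊗ₜ[k] (1 : B2)) * w ∈ JJ (k := k) I1 I2) : w ∈ JJ (k := k) I1 I2 := by
  rw [mem_JJ] at h ⊢
  rw [map_mul, Algebra.TensorProduct.map_tmul, map_one] at h
  set t := Algebra.TensorProduct.map (Ideal.Quotient.mkₐ k I1) (Ideal.Quotient.mkₐ k I2) w
  have hinj : Function.Injective (LinearMap.mulLeft k (Ideal.Quotient.mkₐ k I1 z)) := by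
    rw [← LinearMap.ker_eq_bot, LinearMap.ker_eq_bot']
    intro m hm
    rw [LinearMap.mulLeft_apply] at hm
    rcases mul_eq_zero.1 hm with h1 | h1
    · exact absurd (Ideal.Quotient.eq_zero_iff_mem.1 h1) hz
    · exact h1
  have h2 := Module.Flat.rTensor_preserves_injective_linearMap (M := B2 ⧸ I2)
    (LinearMap.mulLeft k (Ideal.Quotient.mkₐ k I1 z)) hinj
  have h3 : ∀ t : (B1 ⧸ I1) ⊗[k] (B2 ⧸ I2),
      LinearMap.rTensor (B2 ⧸ I2) (LinearMap.mulLeft k (Ideal.Quotient.mkₐ k I1 z)) t =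
        (Ideal.Quotient.mkₐ k I1 z ⊗ₜ[k] (1 : B2 ⧸ I2)) * t := by
    intro t
    induction t using TensorProduct.induction_on with
    | zero => simp
    | tmul a b => simp
    | add a b ha hb => rw [map_add, ha, hb, mul_add]
  apply h2
  rw [h3, map_zero]
  exact h

lemma nzd_right {I1 : Ideal B1} {I2 : Ideal B2} [hI : I2.IsPrime] {z : B2} (hz : z ∉ I2)
    (w : B1 ⊗[k] B2) (h : ((1 : B1) ⊗ₜ[k] z) * w ∈ JJ (k := k) I1 I2) :
    w ∈ JJ (k := k) I1 I2 := by
  rw [mem_JJ] at h ⊢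
  rw [map_mul, Algebra.TensorProduct.map_tmul, map_one] at h
  set t := Algebra.TensorProduct.map (Ideal.Quotient.mkₐ k I1) (Ideal.Quotient.mkₐ k I2) w
  have hinj : Function.Injective (LinearMap.mulLeft k (Ideal.Quotient.mkₐ k I2 z)) := by
    rw [← LinearMap.ker_eq_bot, LinearMap.ker_eq_bot']
    intro m hm
    rw [LinearMap.mulLeft_apply] at hm
    rcases mul_eq_zero.1 hm with h1 | h1
    · exact absurd (Ideal.Quotient.eq_zero_iff_mem.1 h1) hz
    · exact h1
  have h2 := Module.Flat.lTensor_preserves_injective_linearMap (M := B1 ⧸ I1)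
    (LinearMap.mulLeft k (Ideal.Quotient.mkₐ k I2 z)) hinj
  have h3 : ∀ t : (B1 ⧸ I1) ⊗[k] (B2 ⧸ I2),
      LinearMap.lTensor (B1 ⧸ I1) (LinearMap.mulLeft k (Ideal.Quotient.mkₐ k I2 z)) t =
        ((1 : B1 ⧸ I1) ⊗ₜ[k] Ideal.Quotient.mkₐ k I2 z) * t := by
    intro t
    induction t using TensorProduct.induction_on with
    | zero => simp
    | tmul a b => simp
    | add a b ha hb => rw [map_add, ha, hb, mul_add]
  apply h2
  rw [h3, map_zero]
  exact h

lemma JJ_mono {I1 I1' : Ideal B1} {I2 I2' : Ideal B2} (h1 : I1 ≤ I1') (h2 : I2 ≤ I2') :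
    JJ (k := k) I1 I2 ≤ JJ I1' I2' :=
  sup_le_sup (Ideal.map_mono h1) (Ideal.map_mono h2)

variable [IsRegularLocalRing B1] [IsRegularLocalRing B2]

lemma height1 {d1 : ℕ} {x : Fin d1 → B1} (hx : Ind x) : ∀ m : ℕ, m ≤ d1 →
    ∀ q : Ideal (B1 ⊗[k] B2), q.IsPrime → JJ (fst x m) ⊥ ≤ q → (m : ℕ∞) ≤ q.height := by
  intro m
  induction m with
  | zero => intro _ q _ _; simp
  | succ m ih =>
    intro hm q hq hle
    have h1 := fst_prime hx (Nat.le_of_succ_le hm)
    have h2 := not_mem_fst hx (Nat.lt_of_succ_le hm)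
    have h3 : JJ (k := k) (fst x m) (⊥ : Ideal B2) ≤ q :=
      (JJ_mono (fst_mono x m) le_rfl).trans hle
    have h4 : x ⟨m, Nat.lt_of_succ_le hm⟩ ⊗ₜ[k] (1 : B2) ∈ q := by
      apply hle
      apply Ideal.mem_sup_left
      exact Ideal.mem_map_of_mem (Algebra.TensorProduct.includeLeft : B1 →ₐ[k] B1 ⊗[k] B2)
        (Ideal.subset_span ⟨⟨m, Nat.lt_of_succ_le hm⟩, Nat.lt_succ_self m, rfl⟩)
    have h5 := height_step (fun w hw => nzd_left h2 w hw) (ih (Nat.le_of_succ_le hm)) q hq h3 h4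
    push_cast
    exact h5

lemma height2 {d1 d2 : ℕ} {x : Fin d1 → B1} {y : Fin d2 → B2} (hx : Ind x) (hy : Ind y)
    (hx1 : Ideal.span (Set.range x) = maximalIdeal B1) : ∀ m : ℕ, m ≤ d2 →
    ∀ q : Ideal (B1 ⊗[k] B2), q.IsPrime → JJ (maximalIdeal B1) (fst y m) ≤ q →
      ((d1 + m : ℕ) : ℕ∞) ≤ q.height := by
  intro m
  induction m with
  | zero =>
    intro _ q hq hle
    rw [add_zero]
    refine height1 hx d1 le_rfl q hq (le_trans (JJ_mono ?_ bot_le) hle)
    rw [← hx1]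
    exact Ideal.span_mono fun z ⟨i, hi, hz⟩ => ⟨i, hz⟩
  | succ m ih =>
    intro hm q hq hle
    have h1 := fst_prime hy (Nat.le_of_succ_le hm)
    have h2 := not_mem_fst hy (Nat.lt_of_succ_le hm)
    have h3 : JJ (k := k) (maximalIdeal B1) (fst y m) ≤ q :=
      (JJ_mono le_rfl (fst_mono y m)).trans hle
    have h4 : (1 : B1) ⊗ₜ[k] y ⟨m, Nat.lt_of_succ_le hm⟩ ∈ q := by
      apply hle
      apply Ideal.mem_sup_right
      exact Ideal.mem_map_of_mem (Algebra.TensorProduct.includeRight : B2 →ₐ[k] B1 ⊗[k] B2)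
        (Ideal.subset_span ⟨⟨m, Nat.lt_of_succ_le hm⟩, Nat.lt_succ_self m, rfl⟩)
    have h5 := height_step (fun w hw => nzd_right h2 w hw) (ih (Nat.le_of_succ_le hm)) q hq h3 h4
    have e : ((d1 + (m + 1) : ℕ) : ℕ∞) = ((d1 + m : ℕ) : ℕ∞) + 1 := by push_cast; ring
    rw [e]
    exact h5

/-- The localization of the tensor product at the prime ideal generated by the maximal ideals. -/
theorem regular_tensor {d1 d2 : ℕ} {x : Fin d1 → B1} {y : Fin d2 → B2} (hx : Ind x) (hy : Ind y)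
    (hx1 : Ideal.span (Set.range x) = maximalIdeal B1)
    (hy1 : Ideal.span (Set.range y) = maximalIdeal B2)
    (n : Ideal (B1 ⊗[k] B2)) [hn : n.IsPrime] (hnJ : n = JJ (maximalIdeal B1) (maximalIdeal B2))
    (Q : Type u) [CommRing Q] [IsLocalRing Q] [IsNoetherianRing Q] [Algebra (B1 ⊗[k] B2) Q]
    [IsLocalization.AtPrime Q n] :
    ∃ _ : IsRegularLocalRing Q, Ind (Sum.elim (fun i => algebraMap (B1 ⊗[k] B2) Q (x i ⊗ₜ 1))
      (fun j => algebraMap (B1 ⊗[k] B2) Q (1 ⊗ₜ y j))) := by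
  classical
  have hmax : Ideal.span (Set.range (Sum.elim
      (fun i => algebraMap (B1 ⊗[k] B2) Q (x i ⊗ₜ 1))
      (fun j => algebraMap (B1 ⊗[k] B2) Q (1 ⊗ₜ y j)))) = maximalIdeal Q := by
    rw [← IsLocalization.AtPrime.map_eq_maximalIdeal n Q, hnJ]
    unfold JJ
    rw [Ideal.map_sup, ← hx1, ← hy1, Ideal.map_span, Ideal.map_span, Ideal.map_span,
      Ideal.map_span, Set.Sum.elim_range, Ideal.span_union]
    congr 1
    · congr 1
      rw [← Set.range_comp, ← Set.range_comp]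
      rfl
    · congr 1
      rw [← Set.range_comp, ← Set.range_comp]
      rfl
  have hdim : (((d1 + d2 : ℕ) : ℕ∞) : WithBot ℕ∞) ≤ ringKrullDim Q := by
    rw [IsLocalization.AtPrime.ringKrullDim_eq_height n Q]
    have h1 := height2 (k := k) hx hy hx1 d2 le_rfl n hn (by
      rw [hnJ]
      refine JJ_mono le_rfl ?_
      rw [← hy1]
      exact Ideal.span_mono fun z ⟨i, hi, hz⟩ => ⟨i, hz⟩)
    exact_mod_cast h1
  have hcard : Fintype.card (Fin d1 ⊕ Fin d2) = d1 + d2 := by simp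
  have hreg : IsRegularLocalRing Q := by
    apply IsRegularLocalRing.of_spanFinrank_maximalIdeal_le
    refine le_trans ?_ hdim
    have h2 : (maximalIdeal Q).spanFinrank ≤ d1 + d2 := by
      rw [← hmax]
      refine (Submodule.spanFinrank_span_le_ncard_of_finite (Set.finite_range _)).trans ?_
      rw [← hcard, ← Set.image_univ]
      refine (Set.ncard_image_le (Set.toFinite _)).trans ?_
      rw [Set.ncard_univ, Nat.card_eq_fintype_card]
    exact_mod_cast h2
  refine ⟨hreg, ind_of_span hmax ?_⟩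
  rw [hcard]
  exact hdim

end tensor

end Pool.Agent.X140.CP

namespace Pool.Agent.X140.CP

section tensor

variable {k B1 B2 : Type u} [Field k] [CommRing B1] [CommRing B2] [Algebra k B1] [Algebra k B2]
  [IsRegularLocalRing B1] [IsRegularLocalRing B2]

/-- The localization of the tensor product at the prime ideal generated by the maximal ideals. -/
theorem regular_tensor' {ι1 ι2 : Type} [Fintype ι1] [Fintype ι2] {x : ι1 → B1} {y : ι2 → B2}
    (hx : Ind x) (hy : Ind y)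
    (hx1 : Ideal.span (Set.range x) = maximalIdeal B1)
    (hy1 : Ideal.span (Set.range y) = maximalIdeal B2)
    (n : Ideal (B1 ⊗[k] B2)) [hn : n.IsPrime] (hnJ : n = JJ (maximalIdeal B1) (maximalIdeal B2))
    (Q : Type u) [CommRing Q] [IsLocalRing Q] [IsNoetherianRing Q] [Algebra (B1 ⊗[k] B2) Q]
    [IsLocalization.AtPrime Q n] :
    ∃ _ : IsRegularLocalRing Q, Ind (Sum.elim (fun i => algebraMap (B1 ⊗[k] B2) Q (x i ⊗ₜ 1))
      (fun j => algebraMap (B1 ⊗[k] B2) Q (1 ⊗ₜ y j))) := by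
  classical
  let e1 := (Fintype.equivFin ι1).symm
  let e2 := (Fintype.equivFin ι2).symm
  obtain ⟨h1, h2⟩ := regular_tensor (k := k) (hx.comp e1 e1.injective) (hy.comp e2 e2.injective)
    (by rw [e1.surjective.range_comp]; exact hx1) (by rw [e2.surjective.range_comp]; exact hy1)
    n hnJ Q
  refine ⟨h1, ?_⟩
  have h3 := h2.comp (Sum.map e1.symm e2.symm)
    (Sum.map_injective.2 ⟨e1.symm.injective, e2.symm.injective⟩)
  convert h3 using 1
  funext i
  rcases i with i | i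
  · simp
  · simp

end tensor

end Pool.Agent.X140.CP
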