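import Pool.Agent.H59.L.T922ed1.X140.CP.Res
import Pool.Agent.H59.L.S8.H176.DT.B17

/-!
# The compositum step
-/

set_option autoImplicit false
set_option linter.unusedSectionVars false
set_option linter.unusedVariables false

universe u

open IsLocalRing TensorProduct Pool.Agent.W418.LU2 Pool.Agent.H176.DT

namespace Pool.Agent.X140.CP

lemma frac_id {F : Type u} [Field F] {a b d e : F} (hd : d ≠ 0) (he : e ≠ 0) (hb : b ≠ 0) :
    a * b⁻¹ = e * (d * a) * (d * (e * b))⁻¹ := by
  field_simp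

lemma comap_le {E F : Type u} [Field E] [Field F] (φ : E →+* F) (V : ValuationSubring F) (x y : E) :
    (V.comap φ).valuation x ≤ (V.comap φ).valuation y ↔ V.valuation (φ x) ≤ V.valuation (φ y) := by
  by_cases hy : y = 0
  · subst hy
    simp
  have hy' : φ y ≠ 0 := (map_ne_zero _).2 hy
  have h1 : (V.comap φ).valuation x ≤ (V.comap φ).valuation y ↔
      (V.comap φ).valuation (x / y) ≤ 1 := by
    rw [map_div₀]
    exact (div_le_one₀ (zero_lt_iff.2 ((map_ne_zero _).2 hy))).symm
  have h2 : V.valuation (φ x) ≤ V.valuation (φ y) ↔ V.valuation (φ (x / y)) ≤ 1 := by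
    rw [map_div₀ φ, map_div₀]
    exact (div_le_one₀ (zero_lt_iff.2 ((map_ne_zero _).2 hy'))).symm
  rw [h1, h2, ValuationSubring.valuation_le_one_iff, ValuationSubring.valuation_le_one_iff]
  exact Iff.rfl

section

variable {k K : Type u} [Field k] [Field K] [Algebra k K]

/-- Elements of `L1` which are linearly independent over `k` are linearly independent over `L2`. -/
def LD (k : Type u) {K : Type u} [Field k] [Field K] [Algebra k K] (L1 L2 : Subfield K) : Prop :=
  ∀ (n : ℕ) (a b : Fin n → K), (∀ i, a i ∈ L1) → (∀ i, b i ∈ L2) →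
    (∀ c : Fin n → k, ∑ i, c i • a i = 0 → ∀ i, c i = 0) →
    ∑ i, a i * b i = 0 → ∀ i, b i = 0

/-- The valuation of the ring generated by `L1` and `L2` is given by the values of products. -/
def TV {K : Type u} [Field K] (V : ValuationSubring K) (L1 L2 : Subfield K) : Prop :=
  ∀ z ∈ Subring.closure ((L1 : Set K) ∪ L2), ∃ (n : ℕ) (a b : Fin n → K),
    (∀ j, a j ∈ L1 ∧ b j ∈ L2) ∧ z = ∑ j, a j * b j ∧
      ∀ j, V.valuation (a j * b j) ≤ V.valuation z

theorem inv_comp (V : ValuationSubring K) (hkV : ∀ c : k, algebraMap k K c ∈ V) (R : Subring K)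
    [hRn : IsNoetherianRing R] (hkR : ∀ c : k, algebraMap k K c ∈ R) (L1 L2 : Subfield K)
    (h1 : Inv V R L1.subtype) (h2 : Inv V (algebraMap k K).range L2.subtype)
    (hLD : LD k L1 L2) (hT : TV V L1 L2) : Inv V R (L1 ⊔ L2).subtype := by
  classical
  obtain ⟨hR1, U1, hU1, hM1, hS1⟩ := h1
  obtain ⟨hR2, U2, hU2, hM2, hS2⟩ := h2
  have hk1 : ∀ c : k, algebraMap k K c ∈ L1 := fun c => by
    obtain ⟨w, hw⟩ := hR1 _ (hkR c)
    rw [← hw]; exact w.2
  have hk2 : ∀ c : k, algebraMap k K c ∈ L2 := fun c => by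
    obtain ⟨w, hw⟩ := hR2 _ ⟨c, rfl⟩
    rw [← hw]; exact w.2
  let F := ↥(L1 ⊔ L2)
  let i1 : L1 →+* F := Subfield.inclusion le_sup_left
  let i2 : L2 →+* F := Subfield.inclusion le_sup_right
  let _ : Algebra L1 F := i1.toAlgebra
  let _ : Algebra L2 F := i2.toAlgebra
  let _ : Algebra k L1 := ((algebraMap k K).codRestrict L1 hk1).toAlgebra
  let _ : Algebra k L2 := ((algebraMap k K).codRestrict L2 hk2).toAlgebra
  let _ : Algebra k F := (i1.comp (algebraMap k L1)).toAlgebra
  have _ : IsScalarTower k L1 F := IsScalarTower.of_algebraMap_eq' rfl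
  have _ : IsScalarTower k L2 F := IsScalarTower.of_algebraMap_eq' rfl
  let V' : ValuationSubring F := V.comap (L1 ⊔ L2).subtype
  set A1 := Subring.closure (L1.subtype ⁻¹' (R : Set K) ∪ U1) with hA1
  set A2 := Subring.closure (L2.subtype ⁻¹' ((algebraMap k K).range : Set K) ∪ U2) with hA2
  have hkA1 : ∀ c : k, algebraMap k L1 c ∈ A1 := fun c =>
    Subring.subset_closure (Or.inl (hkR c))
  have hkA2 : ∀ c : k, algebraMap k L2 c ∈ A2 := fun c =>
    Subring.subset_closure (Or.inl ⟨c, rfl⟩)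
  have hM1' : Mod (V'.comap (algebraMap L1 F)) A1 := hM1
  have hM2' : Mod (V'.comap (algebraMap L2 F)) A2 := hM2
  have hS1' : SU (V'.comap (algebraMap L1 F)) A1 := hS1
  have hS2' : SU (V'.comap (algebraMap L2 F)) A2 := hS2
  let U : Set F := i1 '' U1 ∪ i2 '' U2
  have hU : U.Finite := (hU1.image _).union (hU2.image _)
  have hcl : Subring.closure ((L1 ⊔ L2).subtype ⁻¹' (R : Set K) ∪ U) =
      (comp2 A1 A2 : Subring F) := by
    apply le_antisymm
    · rw [Subring.closure_le]
      rintro z (hz | ⟨w, hw, rfl⟩ | ⟨w, hw, rfl⟩)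
      · obtain ⟨w, hw⟩ := hR1 _ hz
        refine Subring.subset_closure (Or.inl ⟨w, Subring.subset_closure (Or.inl ?_), ?_⟩)
        · change L1.subtype w ∈ R
          rw [hw]; exact hz
        · exact Subtype.ext hw
      · exact Subring.subset_closure (Or.inl ⟨w, Subring.subset_closure (Or.inr hw), rfl⟩)
      · exact Subring.subset_closure (Or.inr ⟨w, Subring.subset_closure (Or.inr hw), rfl⟩)
    · unfold comp2
      rw [Subring.closure_le]
      have g1 : A1 ≤ (Subring.closure ((L1 ⊔ L2).subtype ⁻¹' (R : Set K) ∪ U)).comap i1 := by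
        rw [hA1, Subring.closure_le]
        rintro z (hz | hz)
        · exact Subring.subset_closure (Or.inl hz)
        · exact Subring.subset_closure (Or.inr (Or.inl ⟨z, hz, rfl⟩))
      have g2 : A2 ≤ (Subring.closure ((L1 ⊔ L2).subtype ⁻¹' (R : Set K) ∪ U)).comap i2 := by
        rw [hA2, Subring.closure_le]
        rintro z (⟨c, hc⟩ | hz)
        · refine Subring.subset_closure (Or.inl ?_)
          change (z : K) ∈ R
          have : (z : K) = algebraMap k K c := hc.symm
          rw [this]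
          exact hkR c
        · exact Subring.subset_closure (Or.inr (Or.inr ⟨z, hz, rfl⟩))
      rintro z (⟨w, hw, rfl⟩ | ⟨w, hw, rfl⟩)
      · exact g1 hw
      · exact g2 hw
  -- noetherian
  let R' : Subring F := R.comap (L1 ⊔ L2).subtype
  have hR'n : IsNoetherianRing R' := by
    have hsurj : ∀ z : R, (z : K) ∈ L1 ⊔ L2 := fun z => by
      obtain ⟨w, hw⟩ := hR1 _ z.2
      rw [← hw]
      exact (le_sup_left : L1 ≤ L1 ⊔ L2) w.2
    let f : R →+* R' :=
      { toFun := fun z => ⟨⟨z, hsurj z⟩, z.2⟩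
        map_one' := rfl
        map_mul' := fun _ _ => rfl
        map_zero' := rfl
        map_add' := fun _ _ => rfl }
    refine isNoetherianRing_of_surjective R R' f ?_
    rintro ⟨⟨z, hz⟩, hz'⟩
    exact ⟨⟨z, hz'⟩, rfl⟩
  have hN : IsNoetherianRing (comp2 A1 A2 : Subring F) := by
    rw [← hcl]
    exact p_noe R' U hU
  -- generation
  have hmap : ∀ x ∈ Subring.closure ((L1 : Set K) ∪ L2), ∃ x' ∈ (comp2 (⊤ : Subring L1)
      (⊤ : Subring L2) : Subring F), (x' : K) = x := by
    intro x hx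
    have g1 : Subring.closure ((L1 : Set K) ∪ L2) ≤
        (comp2 (⊤ : Subring L1) (⊤ : Subring L2) : Subring F).map (L1 ⊔ L2).subtype := by
      rw [Subring.closure_le]
      rintro z (hz | hz)
      · exact ⟨i1 ⟨z, hz⟩, Subring.subset_closure (Or.inl ⟨⟨z, hz⟩, trivial, rfl⟩), rfl⟩
      · exact ⟨i2 ⟨z, hz⟩, Subring.subset_closure (Or.inr ⟨⟨z, hz⟩, trivial, rfl⟩), rfl⟩
    obtain ⟨x', h3, h4⟩ := g1 hx
    exact ⟨x', h3, h4⟩
  have hgen : ∀ z : F, ∃ a ∈ (comp2 (⊤ : Subring L1) (⊤ : Subring L2) : Subring F),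
      ∃ b ∈ (comp2 (⊤ : Subring L1) (⊤ : Subring L2) : Subring F), b ≠ 0 ∧ z = a * b⁻¹ := by
    intro z
    have hz : (z : K) ∈ Subfield.closure ((L1 : Set K) ∪ L2) := by
      rw [Subfield.closure_union, Subfield.closure_eq, Subfield.closure_eq]
      exact z.2
    obtain ⟨x, hx, y, hy, hxy⟩ := Subfield.mem_closure_iff.1 hz
    obtain ⟨x', hx', rfl⟩ := hmap x hx
    obtain ⟨y', hy', rfl⟩ := hmap y hy
    by_cases h0 : y' = 0
    · refine ⟨0, Subring.zero_mem _, 1, Subring.one_mem _, one_ne_zero, ?_⟩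
      apply Subtype.ext
      rw [← hxy, h0]
      simp
    · refine ⟨x', hx', y', hy', h0, ?_⟩
      apply Subtype.ext
      rw [← hxy]
      exact div_eq_mul_inv _ _
  have hden : ∀ r ∈ (comp2 (⊤ : Subring L1) (⊤ : Subring L2) : Subring F),
      ∃ d ∈ (comp2 A1 A2 : Subring F), d ≠ 0 ∧ d * r ∈ (comp2 A1 A2 : Subring F) := by
    intro r hr
    unfold comp2 at hr
    induction hr using Subring.closure_induction with
    | mem x hx =>
      rcases hx with ⟨w, -, rfl⟩ | ⟨w, -, rfl⟩
      · obtain ⟨a, ha, b, hb, hb0, hw⟩ := hM1.2 w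
        refine ⟨i1 b, Subring.subset_closure (Or.inl ⟨b, hb, rfl⟩), (map_ne_zero _).2 hb0, ?_⟩
        change i1 b * i1 w ∈ _
        rw [← map_mul, hw, mul_comm a, mul_inv_cancel_left₀ hb0]
        exact Subring.subset_closure (Or.inl ⟨a, ha, rfl⟩)
      · obtain ⟨a, ha, b, hb, hb0, hw⟩ := hM2.2 w
        refine ⟨i2 b, Subring.subset_closure (Or.inr ⟨b, hb, rfl⟩), (map_ne_zero _).2 hb0, ?_⟩
        change i2 b * i2 w ∈ _
        rw [← map_mul, hw, mul_comm a, mul_inv_cancel_left₀ hb0]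
        exact Subring.subset_closure (Or.inr ⟨a, ha, rfl⟩)
    | zero => exact ⟨1, Subring.one_mem _, one_ne_zero, by rw [mul_zero]; exact Subring.zero_mem _⟩
    | one => exact ⟨1, Subring.one_mem _, one_ne_zero, by rw [mul_one]; exact Subring.one_mem _⟩
    | add x y _ _ hx hy =>
      obtain ⟨d, hd, hd0, hdx⟩ := hx
      obtain ⟨e, he, he0, hey⟩ := hy
      refine ⟨d * e, Subring.mul_mem _ hd he, mul_ne_zero hd0 he0, ?_⟩
      have e1 : d * e * (x + y) = e * (d * x) + d * (e * y) := by ring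
      rw [e1]
      exact Subring.add_mem _ (Subring.mul_mem _ he hdx) (Subring.mul_mem _ hd hey)
    | neg x _ hx =>
      obtain ⟨d, hd, hd0, hdx⟩ := hx
      refine ⟨d, hd, hd0, ?_⟩
      rw [mul_neg]
      exact Subring.neg_mem _ hdx
    | mul x y _ _ hx hy =>
      obtain ⟨d, hd, hd0, hdx⟩ := hx
      obtain ⟨e, he, he0, hey⟩ := hy
      refine ⟨d * e, Subring.mul_mem _ hd he, mul_ne_zero hd0 he0, ?_⟩
      have e1 : d * e * (x * y) = (d * x) * (e * y) := by ring
      rw [e1]
      exact Subring.mul_mem _ hdx hey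
  have hMod : Mod V' (comp2 A1 A2 : Subring F) := by
    refine ⟨?_, ?_⟩
    · unfold comp2
      rw [Subring.closure_le]
      rintro z (⟨w, hw, rfl⟩ | ⟨w, hw, rfl⟩)
      · exact hM1.1 hw
      · exact hM2.1 hw
    · intro z
      obtain ⟨a, ha, b, hb, hb0, rfl⟩ := hgen z
      obtain ⟨d, hd, hd0, hda⟩ := hden a ha
      obtain ⟨e, he, he0, heb⟩ := hden b hb
      refine ⟨e * (d * a), Subring.mul_mem _ he hda, d * (e * b), Subring.mul_mem _ hd heb,
        mul_ne_zero hd0 (mul_ne_zero he0 hb0), ?_⟩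
      exact frac_id hd0 he0 hb0
  -- linear disjointness
  have hLD' : LinDisj k L1 L2 F := by
    unfold LinDisj
    rw [injective_iff_map_eq_zero]
    intro t ht
    let 𝓑 := Module.Basis.ofVectorSpace k L1
    obtain ⟨c, rfl⟩ := TensorProduct.eq_repr_basis_left (N := L2) 𝓑 t
    change Algebra.TensorProduct.productMap (IsScalarTower.toAlgHom k L1 F)
      (IsScalarTower.toAlgHom k L2 F) (∑ i ∈ c.support, 𝓑 i ⊗ₜ c i) = 0 at ht
    rw [map_sum] at ht
    simp only [Algebra.TensorProduct.productMap_apply_tmul] at ht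
    let ε := c.support.equivFin
    have g1 : ∑ i, (𝓑 (ε.symm i).1 : K) * (c (ε.symm i).1 : K) = 0 := by
      have g2 := congrArg (L1 ⊔ L2).subtype ht
      rw [map_sum, map_zero, ← Finset.sum_coe_sort] at g2
      rw [← Equiv.sum_comp ε.symm] at g2
      exact g2
    have g3 := hLD c.support.card (fun i => (𝓑 (ε.symm i).1 : K)) (fun i => (c (ε.symm i).1 : K))
      (fun i => (𝓑 (ε.symm i).1).2) (fun i => (c (ε.symm i).1).2) (by
        intro d hd
        have g4 : ∑ i, d i • 𝓑 (ε.symm i).1 = 0 := by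
          apply Subtype.ext
          have g5 : ((∑ i, d i • 𝓑 (ε.symm i).1 : L1) : K) = ∑ i, d i • (𝓑 (ε.symm i).1 : K) := by
            change L1.subtype (∑ i, d i • 𝓑 (ε.symm i).1) = _
            rw [map_sum]
            refine Finset.sum_congr rfl fun i _ => ?_
            rw [Algebra.smul_def, Algebra.smul_def, map_mul]
            rfl
          rw [g5]
          exact hd
        exact Fintype.linearIndependent_iff.1 (𝓑.linearIndependent.comp
          (fun i => (ε.symm i).1) (Subtype.val_injective.comp ε.symm.injective)) d g4) g1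
    have g6 : c = 0 := by
      rw [← Finsupp.support_eq_empty, Finset.eq_empty_iff_forall_notMem]
      intro i hi
      have g7 := g3 (ε ⟨i, hi⟩)
      simp only [Equiv.symm_apply_apply] at g7
      exact (Finsupp.mem_support_iff.1 hi) (Subtype.ext g7)
    rw [g6, Finsupp.sum_zero_index]
  -- values
  have hT' : Tens L1 L2 V' := by
    intro z hz
    have g1 : (z : K) ∈ Subring.closure ((L1 : Set K) ∪ L2) := by
      have g2 : (comp2 (⊤ : Subring L1) (⊤ : Subring L2) : Subring F) ≤
          (Subring.closure ((L1 : Set K) ∪ L2)).comap (L1 ⊔ L2).subtype := by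
        unfold comp2
        rw [Subring.closure_le]
        rintro z (⟨w, -, rfl⟩ | ⟨w, -, rfl⟩)
        · exact Subring.subset_closure (Or.inl w.2)
        · exact Subring.subset_closure (Or.inr w.2)
      exact g2 hz
    obtain ⟨n, a, b, hab, hsum, hv⟩ := hT z g1
    refine ⟨n, fun j => ⟨a j, (hab j).1⟩, fun j => ⟨b j, (hab j).2⟩, ?_, ?_⟩
    · apply Subtype.ext
      rw [hsum]
      change _ = (L1 ⊔ L2).subtype _
      rw [map_sum]
      rfl
    · intro j
      rw [comap_le]
      exact hv j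
  have hkV' : ∀ c : k, algebraMap k F c ∈ V' := fun c => hkV c
  refine ⟨?_, U, hU, ?_, ?_⟩
  · intro z hz
    obtain ⟨w, hw⟩ := hR1 z hz
    exact ⟨i1 w, hw⟩
  · rw [hcl]
    exact hMod
  · rw [hcl]
    exact su_comp V' A1 A2 hkA1 hkA2 hM1' hM2' hS1' hS2' hN hLD'
      (resDisj_of_tens hkV' hLD' hT') hT' hgen

end

end Pool.Agent.X140.CP
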