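import Pool.Agent.H59.L.T922ed1.X140.CP.Su

/-!
# Residual disjointness
-/

set_option autoImplicit false
set_option linter.unusedSectionVars false
set_option linter.unusedVariables false

universe u

open IsLocalRing TensorProduct Pool.Agent.W418.LU2 Pool.Agent.H176.DT

namespace Pool.Agent.X140.CP

variable {k E1 E2 F : Type u} [Field k] [Field E1] [Field E2] [Field F]
  [Algebra k E1] [Algebra k E2] [Algebra k F] [Algebra E1 F] [Algebra E2 F]
  [IsScalarTower k E1 F] [IsScalarTower k E2 F]

lemma exists_functional {U : Type u} [AddCommGroup U] [Module k U] {n : ℕ} {v : Fin n → U}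
    (hv : LinearIndependent k v) (i : Fin n) : ∃ f : U →ₗ[k] k, ∀ l, f (v l) = if l = i then 1 else 0 := by
  classical
  obtain ⟨g, hg⟩ := LinearMap.exists_extend ((Finsupp.lapply i).comp hv.repr)
  refine ⟨g, fun l => ?_⟩
  have h1 := LinearMap.congr_fun hg ⟨v l, Submodule.subset_span ⟨l, rfl⟩⟩
  have h2 : g (v l) = hv.repr ⟨v l, Submodule.subset_span ⟨l, rfl⟩⟩ i := h1
  rw [h2, hv.repr_eq_single l ⟨v l, Submodule.subset_span ⟨l, rfl⟩⟩ rfl, Finsupp.single_apply]

theorem resDisj_of_tens {V : ValuationSubring F} (hk : ∀ c : k, algebraMap k F c ∈ V)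
    (hLD : LinDisj k E1 E2 F) (hT : Tens E1 E2 V) : ResDisj k E1 E2 V := by
  classical
  intro n a b ha i
  set z := ∑ i, algebraMap E1 F (a i) * algebraMap E2 F (b i) with hz
  obtain ⟨m, a', b', hz', hv⟩ := hT z (by
    refine Subring.sum_mem _ fun i _ => Subring.mul_mem _
      (Subring.subset_closure (Or.inl ⟨a i, trivial, rfl⟩))
      (Subring.subset_closure (Or.inr ⟨b i, trivial, rfl⟩)))
  have hkv : ∀ c : k, V.valuation (algebraMap k F c) ≤ 1 := fun c =>
    (V.valuation_le_one_iff _).2 (hk c)
  let M : Submodule k E1 :=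
    { carrier := {w | V.valuation (algebraMap E1 F w) < 1}
      add_mem' := by
        intro u v hu hv
        change V.valuation _ < 1
        rw [map_add]
        exact Valuation.map_add_lt _ hu hv
      zero_mem' := by
        change V.valuation _ < 1
        simp
      smul_mem' := by
        intro c w hw
        change V.valuation _ < 1
        rw [Algebra.smul_def, map_mul, map_mul, ← IsScalarTower.algebraMap_apply]
        exact lt_of_le_of_lt (mul_le_mul' (hkv c) le_rfl) (by rw [one_mul]; exact hw) }
  have hli : LinearIndependent k (fun l => M.mkQ (a l)) := by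
    rw [Fintype.linearIndependent_iff]
    intro c hc l
    by_contra hcl
    have h1 := ha c (fun h0 => hcl (congrFun h0 l))
    have h2 : M.mkQ (∑ i, c i • a i) = 0 := by
      rw [map_sum, ← hc]
      exact Finset.sum_congr rfl fun i _ => map_smul _ _ _
    rw [Submodule.mkQ_apply, Submodule.Quotient.mk_eq_zero] at h2
    exact absurd h1 (ne_of_lt h2)
  obtain ⟨f, hf⟩ := exists_functional hli i
  let π : E1 →ₗ[k] k := f.comp M.mkQ
  have hπ : ∀ w, π w ≠ 0 → 1 ≤ V.valuation (algebraMap E1 F w) := by
    intro w hw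
    by_contra hcon
    push Not at hcon
    apply hw
    change f (M.mkQ w) = 0
    have h1 : M.mkQ w = 0 := by
      rw [Submodule.mkQ_apply, Submodule.Quotient.mk_eq_zero]
      exact hcon
    rw [h1, map_zero]
  let T : E1 ⊗[k] E2 →ₗ[k] E2 :=
    (TensorProduct.lid k E2).toLinearMap.comp (TensorProduct.map π LinearMap.id)
  have hTt : ∀ u v, T (u ⊗ₜ v) = π u • v := by
    intro u v
    change TensorProduct.lid k E2 (TensorProduct.map π LinearMap.id (u ⊗ₜ v)) = _
    rw [TensorProduct.map_tmul, TensorProduct.lid_tmul]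
    rfl
  have htens : (∑ l, a l ⊗ₜ[k] b l) = ∑ j, a' j ⊗ₜ[k] b' j := by
    apply hLD
    rw [map_sum, map_sum]
    simp only [Algebra.TensorProduct.productMap_apply_tmul]
    exact hz.symm.trans hz'
  have hb : b i = ∑ j, π (a' j) • b' j := by
    have h1 := congrArg T htens
    rw [map_sum, map_sum] at h1
    simp only [hTt] at h1
    rw [← h1]
    have h2 : ∀ l, π (a l) = if l = i then 1 else 0 := hf
    simp only [h2, ite_smul, one_smul, zero_smul]
    simp
  rw [hb, map_sum]
  refine Valuation.map_sum_le _ fun j _ => ?_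
  by_cases h0 : π (a' j) = 0
  · rw [h0, zero_smul, map_zero, map_zero]
    exact zero_le
  · rw [Algebra.smul_def, map_mul, map_mul, ← IsScalarTower.algebraMap_apply]
    refine le_trans ?_ (hv j)
    rw [map_mul]
    exact mul_le_mul' ((hkv _).trans (hπ _ h0)) le_rfl

end Pool.Agent.X140.CP
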