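import Pool.Agent.H59.L.T922ed1.X140.CP.Prod
import Pool.Agent.H59.L.S8.H176.DT.B16
import Pool.Agent.H59.L.S8.TH188.QS.Down2

/-!
# Strong uniformization of composita
-/

set_option autoImplicit false
set_option linter.unusedSectionVars false
set_option linter.unusedVariables false

universe u

open IsLocalRing TensorProduct Pool.Agent.W418.LU2 Pool.Agent.H176.DT

namespace Pool.Agent.X140.CP

section reindex

variable {F : Type u} [Field F]

lemma indN_equiv {B : Type u} [CommRing B] [IsLocalRing B] {ι κ : Type} [Fintype ι] [Fintype κ]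
    (e : κ ≃ ι) {z : ι → B} (h : IndN z) : IndN (fun i => z (e i)) := by
  intro c hc hs i
  have h1 := h (fun j => c (e.symm j)) (fun j hj => hc _ (by
    change z (e (e.symm j)) ∉ _
    rwa [e.apply_symm_apply])) (by
      have h2 : ∑ j, c (e.symm j) * z j = ∑ i, c i * z (e i) := by
        rw [← Equiv.sum_comp e]
        exact Finset.sum_congr rfl fun i _ => by rw [e.symm_apply_apply]
      rw [h2]
      exact hs) (e i)
  simpa using h1

lemma regP_equiv {A P : Subring F} {ι κ : Type} [Fintype ι] [Fintype κ] (e : κ ≃ ι) {x : ι → F}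
    (h : RegP A P x) : RegP A P (fun i => x (e i)) :=
  ⟨h.PA, fun i => h.ne _, fun i => h.mem _, h.reg, h.inv,
    @indN_equiv P _ h.reg.toIsLocalRing ι κ _ _ e _ h.ind⟩

lemma pmon_equiv {P : Subring F} {ι κ : Type} [Fintype ι] [Fintype κ] (e : κ ≃ ι) {x : ι → F}
    {g : F} (h : PMon P x g) : PMon P (fun i => x (e i)) g := by
  obtain ⟨u, u0, u1, u2, δ, rfl⟩ := h
  refine ⟨u, u0, u1, u2, fun i => δ (e i), ?_⟩
  congr 1
  exact (Equiv.prod_comp e fun i => x i ^ δ i).symm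

lemma st_equiv {V : ValuationSubring F} {A : Subring F} {T : Set F} {ι κ : Type} [Fintype ι]
    [Fintype κ] (e : κ ≃ ι) {x : ι → F} (h : St V A T x) : St V A T (fun i => x (e i)) := by
  obtain ⟨β, h1, h2, h3, h4⟩ := h.den
  exact ⟨h.fin, regP_equiv e h.reg, β, h1, pmon_equiv e h2, h3, fun i => h4 _⟩

end reindex

section

variable (k E1 E2 : Type u) {F : Type u} [Field k] [Field E1] [Field E2] [Field F]
  [Algebra k E1] [Algebra k E2] [Algebra k F] [Algebra E1 F] [Algebra E2 F]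
  [IsScalarTower k E1 F] [IsScalarTower k E2 F]

/-- The valuation is given by its values on products. -/
def Tens (V : ValuationSubring F) : Prop :=
  ∀ z ∈ (comp2 (⊤ : Subring E1) (⊤ : Subring E2) : Subring F),
    ∃ (n : ℕ) (a : Fin n → E1) (b : Fin n → E2),
      z = ∑ j, algebraMap E1 F (a j) * algebraMap E2 F (b j) ∧
        ∀ j, V.valuation (algebraMap E1 F (a j) * algebraMap E2 F (b j)) ≤ V.valuation z

variable {k E1 E2}

lemma mo_inl {ι1 ι2 : Type} [Fintype ι1] [Fintype ι2] (x : ι1 → E1) (y : ι2 → E2) (δ : ι1 → ℤ) :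
    algebraMap E1 F (mo x δ) =
      mo (Sum.elim (fun i => algebraMap E1 F (x i)) fun j => algebraMap E2 F (y j))
        (Sum.elim δ 0) := by
  unfold mo
  rw [Fintype.prod_sum_type, map_prod]
  simp [map_zpow₀]

lemma mo_inr {ι1 ι2 : Type} [Fintype ι1] [Fintype ι2] (x : ι1 → E1) (y : ι2 → E2) (δ : ι2 → ℤ) :
    algebraMap E2 F (mo y δ) =
      mo (Sum.elim (fun i => algebraMap E1 F (x i)) fun j => algebraMap E2 F (y j))
        (Sum.elim 0 δ) := by
  unfold mo
  rw [Fintype.prod_sum_type, map_prod]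
  simp [map_zpow₀]

lemma cl_le_lo {E : Type u} [Field E] [Algebra E F] (V : ValuationSubring F) {C : Subring E}
    {D : Subring F} (h : ∀ z ∈ C, algebraMap E F z ∈ D) {z : E}
    (hz : z ∈ lo (V.comap (algebraMap E F)).toSubring C) :
    algebraMap E F z ∈ lo V.toSubring D := by
  obtain ⟨a, ha, b, hb, hb0, hbA, rfl⟩ := hz
  refine ⟨_, h a ha, _, h b hb, (map_ne_zero _).2 hb0, ?_, ?_⟩
  · rw [← map_inv₀]
    exact hbA
  · rw [map_mul, map_inv₀]

theorem su_comp (V : ValuationSubring F) (A1 : Subring E1) (A2 : Subring E2)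
    (hk1 : ∀ c : k, algebraMap k E1 c ∈ A1) (hk2 : ∀ c : k, algebraMap k E2 c ∈ A2)
    (hM1 : Mod (V.comap (algebraMap E1 F)) A1) (hM2 : Mod (V.comap (algebraMap E2 F)) A2)
    (hS1 : SU (V.comap (algebraMap E1 F)) A1) (hS2 : SU (V.comap (algebraMap E2 F)) A2)
    (hN : IsNoetherianRing (comp2 A1 A2 : Subring F))
    (hLD : LinDisj k E1 E2 F) (hRD : ResDisj k E1 E2 V) (hT : Tens E1 E2 V)
    (hgen : ∀ z : F, ∃ a ∈ (comp2 (⊤ : Subring E1) (⊤ : Subring E2) : Subring F),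
      ∃ b ∈ (comp2 (⊤ : Subring E1) (⊤ : Subring E2) : Subring F), b ≠ 0 ∧ z = a * b⁻¹) :
    SU V (comp2 A1 A2) := by
  classical
  intro G hG hG0
  -- numerators and denominators
  choose r hr s hs hs0 hrs using hgen
  let Z : Set F := r '' G ∪ s '' G
  have hZf : Z.Finite := (hG.image r).union (hG.image s)
  have hZ : ∀ z ∈ Z, z ∈ (comp2 (⊤ : Subring E1) (⊤ : Subring E2) : Subring F) ∧ z ≠ 0 := by
    rintro z (⟨g, hg, rfl⟩ | ⟨g, hg, rfl⟩)
    · refine ⟨hr g, fun h0 => hG0 g hg ?_⟩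
      rw [hrs g, h0, zero_mul]
    · exact ⟨hs g, hs0 g⟩
  choose! n a b hab hv using fun z (hz : z ∈ Z) => hT z (hZ z hz).1
  let G1 : Set E1 := {c | c ≠ 0 ∧ ∃ z ∈ Z, ∃ j, a z j = c}
  let G2 : Set E2 := {c | c ≠ 0 ∧ ∃ z ∈ Z, ∃ j, b z j = c}
  have hG1f : G1.Finite := by
    refine (hZf.biUnion fun z _ => Set.finite_range (a z)).subset ?_
    rintro c ⟨-, z, hz, j, rfl⟩
    exact Set.mem_biUnion hz ⟨j, rfl⟩
  have hG2f : G2.Finite := by
    refine (hZf.biUnion fun z _ => Set.finite_range (b z)).subset ?_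
    rintro c ⟨-, z, hz, j, rfl⟩
    exact Set.mem_biUnion hz ⟨j, rfl⟩
  obtain ⟨T1, s1, x, hs1, hx, -, hP1⟩ := p_ind _ A1 hS1 G1 hG1f fun c hc => hc.1
  obtain ⟨T2, s2, y, hs2, hy, -, hP2⟩ := p_ind _ A2 hS2 G2 hG2f fun c hc => hc.1
  set P1 := PP (V.comap (algebraMap E1 F)) A1 T1 with hP1d
  set P2 := PP (V.comap (algebraMap E2 F)) A2 T2 with hP2d
  let A : Subring F := comp2 A1 A2
  let T : Set F := algebraMap E1 F '' T1 ∪ algebraMap E2 F '' T2
  have hAP1 : A1 ≤ P1 := fun z hz => le_lo _ _ (Subring.subset_closure (Or.inl hz))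
  have hAP2 : A2 ≤ P2 := fun z hz => le_lo _ _ (Subring.subset_closure (Or.inl hz))
  have hTP1 : ∀ t ∈ T1, t ∈ P1 := fun z hz => le_lo _ _ (Subring.subset_closure (Or.inr hz))
  have hTP2 : ∀ t ∈ T2, t ∈ P2 := fun z hz => le_lo _ _ (Subring.subset_closure (Or.inr hz))
  have hPV : (comp2 P1 P2 : Subring F) ≤ V.toSubring := by
    unfold comp2
    rw [Subring.closure_le]
    rintro z (⟨a, ha, rfl⟩ | ⟨a, ha, rfl⟩)
    · exact hs1.reg.PA ha
    · exact hs2.reg.PA ha
  have hle1 : Subring.closure ((A : Set F) ∪ T) ≤ comp2 P1 P2 := by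
    rw [Subring.closure_le]
    rintro z (hz | ⟨t, ht, rfl⟩ | ⟨t, ht, rfl⟩)
    · have h1 : A ≤ comp2 P1 P2 := by
        change comp2 A1 A2 ≤ _
        refine Subring.closure_mono (Set.union_subset_union ?_ ?_)
        · rintro _ ⟨a, ha, rfl⟩
          exact ⟨a, hAP1 ha, rfl⟩
        · rintro _ ⟨a, ha, rfl⟩
          exact ⟨a, hAP2 ha, rfl⟩
      exact h1 hz
    · exact Subring.subset_closure (Or.inl ⟨t, hTP1 t ht, rfl⟩)
    · exact Subring.subset_closure (Or.inr ⟨t, hTP2 t ht, rfl⟩)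
  have hcl1 : ∀ z ∈ Subring.closure ((A1 : Set E1) ∪ T1),
      algebraMap E1 F z ∈ Subring.closure ((A : Set F) ∪ T) := by
    intro z hz
    have h1 : Subring.closure ((A1 : Set E1) ∪ T1) ≤
        (Subring.closure ((A : Set F) ∪ T)).comap (algebraMap E1 F) := by
      rw [Subring.closure_le]
      rintro z (hz | hz)
      · exact Subring.subset_closure (Or.inl (Subring.subset_closure (Or.inl ⟨z, hz, rfl⟩)))
      · exact Subring.subset_closure (Or.inr (Or.inl ⟨z, hz, rfl⟩))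
    exact h1 hz
  have hcl2 : ∀ z ∈ Subring.closure ((A2 : Set E2) ∪ T2),
      algebraMap E2 F z ∈ Subring.closure ((A : Set F) ∪ T) := by
    intro z hz
    have h1 : Subring.closure ((A2 : Set E2) ∪ T2) ≤
        (Subring.closure ((A : Set F) ∪ T)).comap (algebraMap E2 F) := by
      rw [Subring.closure_le]
      rintro z (hz | hz)
      · exact Subring.subset_closure (Or.inl (Subring.subset_closure (Or.inr ⟨z, hz, rfl⟩)))
      · exact Subring.subset_closure (Or.inr (Or.inr ⟨z, hz, rfl⟩))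
    exact h1 hz
  have hle2 : comp2 P1 P2 ≤ lo V.toSubring (Subring.closure ((A : Set F) ∪ T)) := by
    unfold comp2
    rw [Subring.closure_le]
    rintro z (⟨a, ha, rfl⟩ | ⟨a, ha, rfl⟩)
    · exact cl_le_lo V hcl1 ha
    · exact cl_le_lo V hcl2 ha
  have hPP : lo V.toSubring (comp2 P1 P2) = PP V A T := lo_eq (hle1.trans hPV) hle1 hle2
  have hNT : IsNoetherianRing (Subring.closure ((A : Set F) ∪ T)) :=
    p_noe A T ((hs1.fin.image _).union (hs2.fin.image _))
  have hNl : IsNoetherianRing (lo V.toSubring (comp2 P1 P2 : Subring F)) := by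
    rw [hPP]
    exact Pool.Agent.TH188.QS.noeth_lo (hle1.trans hPV)
  have hreg := prod_reg V P1 P2 (fun c => hAP1 (hk1 c)) (fun c => hAP2 (hk2 c)) hs1.reg hs2.reg
    hx hy hLD hRD hNl
  rw [hPP] at hreg
  set X : Fin s1 ⊕ Fin s2 → F :=
    Sum.elim (fun i => algebraMap E1 F (x i)) fun j => algebraMap E2 F (y j) with hX
  have hm1 : ∀ z ∈ P1, algebraMap E1 F z ∈ PP V A T := fun z hz => by
    rw [← hPP]
    exact le_lo _ _ (Subring.subset_closure (Or.inl ⟨z, hz, rfl⟩))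
  have hm2 : ∀ z ∈ P2, algebraMap E2 F z ∈ PP V A T := fun z hz => by
    rw [← hPP]
    exact le_lo _ _ (Subring.subset_closure (Or.inr ⟨z, hz, rfl⟩))
  have hpm1 : ∀ z, PMon P1 x z → PMon (PP V A T) X (algebraMap E1 F z) := by
    rintro z ⟨u, u0, u1, u2, δ, rfl⟩
    refine ⟨algebraMap E1 F u, (map_ne_zero _).2 u0, hm1 u u1, ?_, Sum.elim δ 0, ?_⟩
    · rw [← map_inv₀]; exact hm1 _ u2
    · rw [map_mul, mo_inl x y]
  have hpm2 : ∀ z, PMon P2 y z → PMon (PP V A T) X (algebraMap E2 F z) := by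
    rintro z ⟨u, u0, u1, u2, δ, rfl⟩
    refine ⟨algebraMap E2 F u, (map_ne_zero _).2 u0, hm2 u u1, ?_, Sum.elim 0 δ, ?_⟩
    · rw [← map_inv₀]; exact hm2 _ u2
    · rw [map_mul, mo_inr x y]
  have hXne : ∀ i, X i ≠ 0 := hreg.ne
  have hSt : St V A T X := by
    obtain ⟨β1, hβ1, hβ1m, hβ1t, hβ1x⟩ := hs1.den
    obtain ⟨β2, hβ2, hβ2m, hβ2t, hβ2x⟩ := hs2.den
    refine ⟨(hs1.fin.image _).union (hs2.fin.image _), hreg,
      algebraMap E1 F β1 * algebraMap E2 F β2, ?_, (hpm1 _ hβ1m).mul hXne (hpm2 _ hβ2m), ?_, ?_⟩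
    · exact Subring.mul_mem _ (Subring.subset_closure (Or.inl ⟨β1, hβ1, rfl⟩))
        (Subring.subset_closure (Or.inr ⟨β2, hβ2, rfl⟩))
    · rintro t (⟨t, ht, rfl⟩ | ⟨t, ht, rfl⟩)
      · have e : algebraMap E1 F β1 * algebraMap E2 F β2 * algebraMap E1 F t =
            algebraMap E1 F (β1 * t) * algebraMap E2 F β2 := by
          rw [map_mul]; ring
        rw [e]
        exact Subring.mul_mem _ (Subring.subset_closure (Or.inl ⟨_, hβ1t t ht, rfl⟩))
          (Subring.subset_closure (Or.inr ⟨β2, hβ2, rfl⟩))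
      · have e : algebraMap E1 F β1 * algebraMap E2 F β2 * algebraMap E2 F t =
            algebraMap E1 F β1 * algebraMap E2 F (β2 * t) := by
          rw [map_mul]; ring
        rw [e]
        exact Subring.mul_mem _ (Subring.subset_closure (Or.inl ⟨_, hβ1, rfl⟩))
          (Subring.subset_closure (Or.inr ⟨_, hβ2t t ht, rfl⟩))
    · rintro (i | i)
      · have e : algebraMap E1 F β1 * algebraMap E2 F β2 * X (Sum.inl i) =
            algebraMap E1 F (β1 * x i) * algebraMap E2 F β2 := by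
          change _ * algebraMap E1 F (x i) = _
          rw [map_mul]; ring
        rw [e]
        exact Subring.mul_mem _ (Subring.subset_closure (Or.inl ⟨_, hβ1x i, rfl⟩))
          (Subring.subset_closure (Or.inr ⟨β2, hβ2, rfl⟩))
      · have e : algebraMap E1 F β1 * algebraMap E2 F β2 * X (Sum.inr i) =
            algebraMap E1 F β1 * algebraMap E2 F (β2 * y i) := by
          change _ * algebraMap E2 F (y i) = _
          rw [map_mul]; ring
        rw [e]
        exact Subring.mul_mem _ (Subring.subset_closure (Or.inl ⟨_, hβ1, rfl⟩))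
          (Subring.subset_closure (Or.inr ⟨_, hβ2x i, rfl⟩))
  -- the products
  let w : F → (z : F) → Fin (n z) → F := fun _ z j => algebraMap E1 F (a z j) *
    algebraMap E2 F (b z j)
  let Y : Set F := {c | c ≠ 0 ∧ ∃ z ∈ Z, ∃ j, algebraMap E1 F (a z j) *
    algebraMap E2 F (b z j) = c}
  have hYf : Y.Finite := by
    refine (hZf.biUnion fun z _ => Set.finite_range fun j => algebraMap E1 F (a z j) *
      algebraMap E2 F (b z j)).subset ?_
    rintro c ⟨-, z, hz, j, rfl⟩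
    exact Set.mem_biUnion hz ⟨j, rfl⟩
  have hYm : ∀ c ∈ Y, PMon (PP V A T) X c := by
    rintro c ⟨hc, z, hz, j, rfl⟩
    have h1 : a z j ≠ 0 := fun h0 => hc (by rw [h0, map_zero, zero_mul])
    have h2 : b z j ≠ 0 := fun h0 => hc (by rw [h0, map_zero, mul_zero])
    exact (hpm1 _ (hP1 _ ⟨h1, z, hz, j, rfl⟩).1).mul hXne (hpm2 _ (hP2 _ ⟨h2, z, hz, j, rfl⟩).1)
  let G' : Set F := {c | ∃ y ∈ Y, ∃ y' ∈ Y, y * y'⁻¹ = c}
  have hG'f : G'.Finite := by
    refine ((hYf.prod hYf).image fun q : F × F => q.1 * q.2⁻¹).subset ?_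
    rintro c ⟨y, hy, y', hy', rfl⟩
    exact ⟨(y, y'), ⟨hy, hy'⟩, rfl⟩
  obtain ⟨T', X', hTT', hSt', -, -, hmon', hval'⟩ := p_ref V A T X hSt G' hG'f (by
    rintro c ⟨y, hy, y', hy', rfl⟩
    exact (hYm y hy).mul hXne (hYm y' hy').inv)
  have hX'ne : ∀ i, X' i ≠ 0 := hSt'.reg.ne
  -- leading terms
  have hZm : ∀ z ∈ Z, PMon (PP V A T') X' z := by
    intro z hz
    have hz0 := (hZ z hz).2
    have hvz : V.valuation z ≠ 0 := (map_ne_zero _).2 hz0
    obtain ⟨j0, hj0⟩ : ∃ j, V.valuation (algebraMap E1 F (a z j) * algebraMap E2 F (b z j)) =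
        V.valuation z := by
      by_contra hcon
      push Not at hcon
      have h2 : V.valuation (∑ j, algebraMap E1 F (a z j) * algebraMap E2 F (b z j)) <
          V.valuation z :=
        Valuation.map_sum_lt V.valuation hvz fun j _ => lt_of_le_of_ne (hv z hz j) (hcon j)
      rw [← hab z hz] at h2
      exact lt_irrefl _ h2
    set y0 := algebraMap E1 F (a z j0) * algebraMap E2 F (b z j0) with hy0
    have hy00 : y0 ≠ 0 := by
      intro h0
      rw [h0, map_zero] at hj0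
      exact hvz hj0.symm
    have hy0Y : y0 ∈ Y := ⟨hy00, z, hz, j0, rfl⟩
    have h1 : z * y0⁻¹ ∈ PP V A T' := by
      have e : z * y0⁻¹ = ∑ j, (algebraMap E1 F (a z j) * algebraMap E2 F (b z j)) * y0⁻¹ := by
        rw [← Finset.sum_mul, ← hab z hz]
      rw [e]
      refine Subring.sum_mem _ fun j _ => ?_
      by_cases h0 : algebraMap E1 F (a z j) * algebraMap E2 F (b z j) = 0
      · rw [h0, zero_mul]; exact Subring.zero_mem _
      · refine hval' _ ⟨_, ⟨h0, z, hz, j, rfl⟩, y0, hy0Y, rfl⟩ ?_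
        rw [← V.valuation_le_one_iff, map_mul, map_inv₀, hj0]
        rw [← div_eq_mul_inv]
        exact (div_le_one₀ (zero_lt_iff.2 hvz)).2 (hv z hz j)
    have h2 : V.valuation (z * y0⁻¹) = 1 := by
      rw [map_mul, map_inv₀, hj0, mul_inv_cancel₀ hvz]
    have h3 : z * y0⁻¹ ≠ 0 := mul_ne_zero hz0 (inv_ne_zero hy00)
    have h4 : (z * y0⁻¹)⁻¹ ∈ PP V A T' := by
      refine hSt'.reg.inv _ h1 h3 ?_
      change (z * y0⁻¹)⁻¹ ∈ V
      rw [← V.valuation_le_one_iff, map_inv₀, h2, inv_one]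
    have h5 : PMon (PP V A T') X' (z * y0⁻¹) :=
      ⟨_, h3, h1, h4, 0, by rw [mo_zero, mul_one]⟩
    have h6 := h5.mul hX'ne (hmon' y0 (hYm y0 hy0Y))
    rwa [inv_mul_cancel_right₀ hy00] at h6
  have hGm : ∀ g ∈ G, PMon (PP V A T') X' g := by
    intro g hg
    rw [hrs g]
    exact (hZm _ (Or.inl ⟨g, hg, rfl⟩)).mul hX'ne (hZm _ (Or.inr ⟨g, hg, rfl⟩)).inv
  obtain ⟨T'', X'', -, hSt'', -, -, hmon'', hval''⟩ := p_ref V A T' X' hSt' G hG hGm
  let e : Fin (s1 + s2) ≃ Fin s1 ⊕ Fin s2 := finSumFinEquiv.symm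
  exact ⟨T'', s1 + s2, fun i => X'' (e i), st_equiv e hSt'', fun g hg =>
    ⟨pmon_equiv e (hmon'' g (hGm g hg)), hval'' g hg⟩⟩

end

end Pool.Agent.X140.CP
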